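import Pool.Agent.X187.WN.Cls

/-! # MP_fe3f7a_an, Q1: every weakly numerically hypercyclic operator on `ℂ^n` satisfies one of
(C1)-(C4). -/

namespace Pool.Agent.Results.MP_fe3f7a_an.SpectralConditions

open Pool.Agent.X187.WN Module

/-- `S` is numerically hypercyclic: for some `x`, `f` with `‖x‖ = ‖f‖ = f x = 1` the set
`{f (S^k x) : k ≥ 0}` is dense in `ℂ`. -/
def NumericallyHypercyclic {Y : Type} [NormedAddCommGroup Y] [NormedSpace ℂ Y]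
    (S : Y →L[ℂ] Y) : Prop :=
  ∃ (x : Y) (f : Y →L[ℂ] ℂ), ‖x‖ = 1 ∧ ‖f‖ = 1 ∧ f x = 1 ∧
    Dense (Set.range fun k : ℕ => f ((S ^ k) x))

/-- `T` is similar, through a linear topological isomorphism `J` onto some complex Banach space
`Y`, to a numerically hypercyclic operator. -/
def WeaklyNumericallyHypercyclic {X : Type} [NormedAddCommGroup X] [NormedSpace ℂ X]
    (T : X →L[ℂ] X) : Prop :=
  ∃ (Y : Type) (_ : NormedAddCommGroup Y) (_ : NormedSpace ℂ Y) (_ : CompleteSpace Y)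
    (J : X ≃L[ℂ] Y) (S : Y →L[ℂ] Y),
    NumericallyHypercyclic S ∧ ∀ x, T x = J.symm (S (J x))

/-- independence: `z^m w^n ≠ 1` for all integers `m, n` that are not both zero -/
def Independent (z w : ℂ) : Prop := ∀ m n : ℤ, (m ≠ 0 ∨ n ≠ 0) → z ^ m * w ^ n ≠ 1

/-- `z` has infinite order in the multiplicative group -/
def InfiniteOrder (z : ℂ) : Prop := ∀ j : ℕ, 1 ≤ j → z ^ j ≠ 1

/-- `l` is an eigenvalue of `T` -/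
def IsEigenvalue {X : Type} [NormedAddCommGroup X] [NormedSpace ℂ X]
    (T : X →L[ℂ] X) (l : ℂ) : Prop := ∃ x : X, x ≠ 0 ∧ T x = l • x

/-- `ker (T - l I)^2 ≠ ker (T - l I)` -/
def NontrivialBlock {X : Type} [NormedAddCommGroup X] [NormedSpace ℂ X]
    (T : X →L[ℂ] X) (l : ℂ) : Prop :=
  {x : X | (T - l • (1 : X →L[ℂ] X)) ((T - l • (1 : X →L[ℂ] X)) x) = 0} ≠
    {x : X | (T - l • (1 : X →L[ℂ] X)) x = 0}

/-- condition (C1) -/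
def C1 {X : Type} [NormedAddCommGroup X] [NormedSpace ℂ X] (T : X →L[ℂ] X) : Prop :=
  ∃ l₁ l₂ : ℂ, IsEigenvalue T l₁ ∧ IsEigenvalue T l₂ ∧ ‖l₁‖ = ‖l₂‖ ∧ 1 < ‖l₂‖ ∧
    Independent (l₁ / (‖l₁‖ : ℂ)) (l₂ / (‖l₂‖ : ℂ))

/-- condition (C2) -/
def C2 {X : Type} [NormedAddCommGroup X] [NormedSpace ℂ X] (T : X →L[ℂ] X) : Prop :=
  ∃ l₁ l₂ : ℂ, ‖l₁‖ = 1 ∧ ‖l₂‖ = 1 ∧ Independent l₁ l₂ ∧
    NontrivialBlock T l₁ ∧ NontrivialBlock T l₂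

/-- condition (C3) -/
def C3 {X : Type} [NormedAddCommGroup X] [NormedSpace ℂ X] (T : X →L[ℂ] X) : Prop :=
  ∃ l₁ l₂ l₃ : ℂ, IsEigenvalue T l₁ ∧ IsEigenvalue T l₂ ∧ IsEigenvalue T l₃ ∧
    ‖l₁‖ = ‖l₂‖ ∧ ‖l₃‖ < ‖l₂‖ ∧ 1 < ‖l₃‖ ∧ InfiniteOrder (l₁ / l₂) ∧
    Independent (l₁ / (‖l₁‖ : ℂ)) (l₃ / (‖l₃‖ : ℂ))

/-- condition (C4) -/
def C4 {X : Type} [NormedAddCommGroup X] [NormedSpace ℂ X] (T : X →L[ℂ] X) : Prop :=
  ∃ l₁ l₂ l₃ : ℂ, IsEigenvalue T l₁ ∧ IsEigenvalue T l₂ ∧ ‖l₃‖ = 1 ∧ NontrivialBlock T l₃ ∧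
    ‖l₁‖ = ‖l₂‖ ∧ 1 < ‖l₂‖ ∧ InfiniteOrder (l₁ / l₂) ∧ Independent (l₁ / (‖l₁‖ : ℂ)) l₃

section

variable {X : Type} [NormedAddCommGroup X] [NormedSpace ℂ X]

lemma indep_of {z w : ℂ} (h : Indep z w) : Independent z w := by
  intro m n hmn h1
  obtain ⟨h2, h3⟩ := h m n h1
  rcases hmn with h4 | h4
  · exact h4 h2
  · exact h4 h3

lemma eig_of {T : X →L[ℂ] X} {l : ℂ} (h : End.HasEigenvalue (T : X →ₗ[ℂ] X) l) :
    IsEigenvalue T l := by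
  obtain ⟨v, hv⟩ := h.exists_hasEigenvector
  exact ⟨v, hv.2, hv.apply_eq_smul⟩

lemma block_of {T : X →L[ℂ] X} {l : ℂ} (h : Jord (T : X →ₗ[ℂ] X) l) :
    NontrivialBlock T l := by
  intro h1
  apply h
  ext x
  rw [Set.ext_iff] at h1
  have h2 := h1 x
  simp only [Set.mem_ofPred_eq] at h2
  rw [LinearMap.mem_ker, LinearMap.mem_ker, pow_two]
  exact h2

lemma pow_conj {Y : Type} [NormedAddCommGroup Y] [NormedSpace ℂ Y] {T : X →L[ℂ] X}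
    {J : X ≃L[ℂ] Y} {S : Y →L[ℂ] Y} (h : ∀ x, T x = J.symm (S (J x))) (k : ℕ) (x : X) :
    J (((T : X →ₗ[ℂ] X) ^ k) x) = (S ^ k) (J x) := by
  induction k with
  | zero => simp
  | succ k ih =>
    rw [pow_succ', pow_succ', Module.End.mul_apply]
    change J (T (((T : X →ₗ[ℂ] X) ^ k) x)) = S ((S ^ k) (J x))
    rw [h, J.apply_symm_apply, ih]

end

/-- Every weakly numerically hypercyclic operator on `ℂ^n` satisfies one of (C1)-(C4). -/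
theorem result : ∀ (n : ℕ) (T : (Fin n → ℂ) →L[ℂ] (Fin n → ℂ)),
    WeaklyNumericallyHypercyclic T → C1 T ∨ C2 T ∨ C3 T ∨ C4 T := by
  intro n T hT
  obtain ⟨Y, _, _, _, J, S, ⟨y, g, -, -, -, hd⟩, hTS⟩ := hT
  have hd' : Dense (Set.range fun k : ℕ => ((g : Y →ₗ[ℂ] ℂ) ∘ₗ
      ((J : (Fin n → ℂ) →L[ℂ] Y) : (Fin n → ℂ) →ₗ[ℂ] Y))
      (((T : (Fin n → ℂ) →ₗ[ℂ] (Fin n → ℂ)) ^ k) (J.symm y))) := by
    convert hd using 3 with k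
    have := pow_conj hTS k (J.symm y)
    rw [J.apply_symm_apply] at this
    rw [← this]
    rfl
  rcases main _ _ _ hd' with ⟨l₁, l₂, h1, h2, h3, h4, h5⟩ | ⟨l₁, l₂, h1, h2, h3, h4, h5⟩ |
    ⟨l₁, l₂, l₃, h1, h2, h3, h4, h5, h6, h7, h8⟩ | ⟨l₁, l₂, l₃, h1, h2, h3, h4, h5, h6, h7, h8⟩
  · exact Or.inl ⟨l₁, l₂, eig_of h1, eig_of h2, h3, h3 ▸ h4, indep_of h5⟩
  · exact Or.inr (Or.inl ⟨l₁, l₂, h1, h2, indep_of h3, block_of h4, block_of h5⟩)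
  · exact Or.inr (Or.inr (Or.inl ⟨l₁, l₂, l₃, eig_of h1, eig_of h2, eig_of h3, h4, h4 ▸ h5, h6,
      h7, indep_of h8⟩))
  · exact Or.inr (Or.inr (Or.inr ⟨l₁, l₂, l₃, eig_of h1, eig_of h2, h3, block_of h4, h5,
      h5 ▸ h6, h7, indep_of h8⟩))

end Pool.Agent.Results.MP_fe3f7a_an.SpectralConditions
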